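import Pool.Agent.H.MP_a1177b_an.C

namespace Pool.Agent.Results.MP_a1177b_an.No

open Set Filter Topology Metric Matrix
open scoped ComplexOrder ComplexConjugate InnerProductSpace

/-- a function of two variables restricted to `Ω × Ω` -/
def res {g : ℕ} (Ω : Set (Fin g → ℂ)) (f : (Fin g → ℂ) → (Fin g → ℂ) → ℂ) : Matrix Ω Ω ℂ :=
  of fun x y => f x y

/-- holomorphic kernel on `Ω`: positive semidefinite, and `(z, u) ↦ f z (conj u)` holomorphic -/
def Hol {g : ℕ} (Ω : Set (Fin g → ℂ)) (f : (Fin g → ℂ) → (Fin g → ℂ) → ℂ) : Prop :=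
  (res Ω f).PosSemidef ∧ DifferentiableOn ℂ
    (fun p : (Fin g → ℂ) × (Fin g → ℂ) => f p.1 (star p.2)) (Ω ×ˢ (star ⁻¹' Ω))

/-- the block matrix with blocks `l x y • 1 - k x y • W x * (W y)ᴴ` -/
def Pick {X : Type} {J : ℕ} (k l : Matrix X X ℂ) (W : X → Matrix (Fin J) (Fin J) ℂ) :
    Matrix (X × Fin J) (X × Fin J) ℂ :=
  of fun p q => (l p.1 q.1 • (1 : Matrix (Fin J) (Fin J) ℂ) - k p.1 q.1 • (W p.1 * (W q.1)ᴴ)) p.2 q.2

/-- complete Pick pairs -/
def CP {X : Type} (k l : Matrix X X ℂ) : Prop :=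
  ∀ J, 1 ≤ J → ∀ (F : Finset X) (W : F → Matrix (Fin J) (Fin J) ℂ),
    (Pick (k.submatrix (↑) (↑)) (l.submatrix (↑) (↑)) W).PosSemidef →
      ∃ Φ : X → Matrix (Fin J) (Fin J) ℂ, (∀ x : F, Φ x = W x) ∧ (Pick k l Φ).PosSemidef

/-- the set `Ω¹_θ` -/
def Om1 {g : ℕ} (θ : (Fin g → ℕ) → ℝ) : Set (Fin g → ℂ) :=
  {x | x ∈ interior {x : Fin g → ℂ | BddAbove (range fun a => θ a * ∏ j, ‖x j‖ ^ (2 * a j))} ∧
    ∃ s < 1, HasSum (fun a => θ a * ∏ j, ‖x j‖ ^ (2 * a j)) s}

open Pool.Agent.H.MP_a1177b_an Pool.Agent.H.MP_e3a8c8_an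

theorem result (g : ℕ) (hg : 1 ≤ g) (Ω : Set (Fin g → ℂ)) (ho : IsOpen Ω) (_hc : IsConnected Ω)
    (h0 : 0 ∈ Ω) (k l : (Fin g → ℂ) → (Fin g → ℂ) → ℂ) (hk : Hol Ω k) (hl : Hol Ω l)
    (c : (Fin g → ℕ) → ℝ) (c0 : ∀ a, 0 < c a) (c1 : c 0 = 1)
    (hs : ∀ᶠ p : (Fin g → ℂ) × (Fin g → ℂ) in 𝓝 0, HasSum (fun a : Fin g → ℕ =>
      (c a : ℂ) * (∏ i, p.1 i ^ a i) * ∏ i, conj (p.2 i) ^ a i) (k p.1 p.2))
    (θ : (Fin g → ℕ) → ℝ) (θ0 : θ 0 = 0)
    (hθ : ∀ b ≠ 0, θ b = max 0 (c b - ∑ w ∈ Finset.Ioo 0 b, θ w * c (b - w)))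
    (l0 : l 0 0 ≠ 0) (hcp : CP (res Ω k) (res Ω l)) : ¬ closure (Om1 θ) ⊆ Ω := fun hΩ => by
  classical
  have t0 : ∀ w, 0 ≤ θ w := fun w => by
    by_cases c : w = 0
    · rw [c, θ0]
    · rw [hθ w c]; exact le_max_left _ _
  have sb : ∀ r, ball 0 r ⊆ Ω → ball (0 : Fin g → ℂ) r ⊆ star ⁻¹' Ω := fun r h x hx =>
    h (by simpa using hx)
  have se := fun r (h : ball 0 r ⊆ Ω) => ser (hk.2.mono (prod_mono h (sb r h))) (fun a => (c0 a).le)
    (by simpa using (Continuous.tendsto' (f := fun p : (Fin g → ℂ) × (Fin g → ℂ) => (p.1, star p.2))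
      (by fun_prop) 0 0 (by simp)).eventually hs)
  obtain ⟨R, r, R0, hr, hb, hR⟩ := rad ho h0 θ0 t0 ⟨0, hg⟩ (by
    rw [hθ _ (by simp), Finset.sum_eq_zero, sub_zero]
    · exact lt_max_of_lt_right (c0 _)
    intro w hw
    obtain ⟨h1, h2⟩ := Finset.mem_Ioo.1 hw
    obtain ⟨i, hi⟩ := (Pi.lt_def.1 h1).2
    obtain ⟨j, hj⟩ := (Pi.lt_def.1 h2).2
    have := h2.le i
    by_cases e : j = ⟨0, hg⟩ <;> by_cases e' : i = ⟨0, hg⟩ <;> simp_all)
    (fun r h t h1 h2 => .of_nonneg_of_le (fun a => mul_nonneg (t0 a) (by positivity)) (fun a => by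
      gcongr
      by_cases e : a = 0
      · rw [e, θ0]; exact (c0 _).le
      · rw [hθ a e]
        exact max_le (c0 a).le (sub_le_self _ (Finset.sum_nonneg fun w _ =>
          mul_nonneg (t0 w) (c0 _).le))) ((se r h).1 t h1 h2)) hΩ
  have r0 := R0.trans_lt hr
  have k0 : ∀ x ∈ ball 0 r, k x 0 = 1 ∧ k 0 x = 1 := fun x hx => by
    have : ∀ a : Fin g → ℕ, a ≠ 0 → ∏ i, (0 : Fin g → ℂ) i ^ a i = 0 := fun a h => by
      obtain ⟨i, hi⟩ := Function.ne_iff.1 h
      exact Finset.prod_eq_zero (Finset.mem_univ i) (zero_pow hi)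
    constructor
    · simpa [c1] using ((se r hb).2 x hx 0 (mem_ball_self r0)).unique
        (hasSum_single 0 fun a h => by rw [this a h, mul_zero])
    · simpa [c1] using ((se r hb).2 0 (mem_ball_self r0) (star x) (by simpa using hx)).unique
        (hasSum_single 0 fun a h => by rw [this a h, mul_zero, zero_mul])
  have nz : ∀ M : Matrix Ω Ω ℂ, M.PosSemidef → ∀ x y, M x y ≠ 0 → M x x ≠ 0 := fun M hM x y h e => by
    obtain ⟨_, _, _, v, hv⟩ := exists_gram hM
    rw [← hv, inner_self_eq_zero] at e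
    exact h (by rw [← hv, e, inner_zero_left])
  obtain ⟨C, hC⟩ := (isCompact_closedBall (0 : Fin g → ℂ) R).exists_bound_of_continuousOn
    (hl.2.continuousOn.comp (f := fun x => (x, star x)) (by fun_prop) fun x hx =>
      ⟨hb (closedBall_subset_ball hr hx), by simpa using hb (closedBall_subset_ball hr hx)⟩)
  have L0 := norm_pos_iff.2 l0
  have C0 : 0 < C := L0.trans_le (by simpa using hC 0 (mem_closedBall_self R0))
  have δ0 : 0 < ‖l 0 0‖ / C / 6 := by positivity
  obtain ⟨S, y, S0, y0, hy, hS⟩ := lp (κ := fun a => c a * R ^ (2 * ∑ i, a i))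
    (fun a => mul_nonneg (c0 a).le (by positivity)) (by simp [c1]) (by simp [θ0]) (fun b h => by
      rw [hθ b h, max_mul_of_nonneg _ _ (by positivity), zero_mul, sub_mul, Finset.sum_mul]
      refine congrArg (fun t => max 0 (_ - t)) (Finset.sum_congr rfl fun w hw => ?_)
      rw [mul_mul_mul_comm, ← pow_add, ← mul_add, ← Finset.sum_add_distrib]
      congr 3
      exact Finset.sum_congr rfl fun i _ =>
        (Nat.add_sub_cancel' ((Finset.mem_Ioo.1 hw).2.le i)).symm) hR δ0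
  obtain ⟨u, h1, h2⟩ := exists_between hr
  have hσ := (Summable.of_nonneg_of_le (fun a => mul_nonneg (c0 a).le (pow_nonneg R0 _))
    (fun a => mul_le_mul_of_nonneg_left (pow_le_pow_left₀ R0 h1.le _) (c0 a).le)
      ((se r hb).1 u (R0.trans_lt h1) h2)).hasSum
  obtain ⟨A, hA⟩ := (((hσ.const_sub (∑' a, c a * R ^ (2 * ∑ i, a i))).const_mul
    (∑ n ∈ S, y n)).eventually_lt_const (u := ‖l 0 0‖ / C / 6) (by
      rwa [sub_self, mul_zero])).exists
  obtain ⟨N, ⟨N0, n1⟩, n2, n3⟩ := (((eventually_ne_atTop 0).and ((eventually_all_finset S).2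
    fun n _ => evN (up n))).and (((eventually_all_finset ((S ×ˢ A).image fun x => up x.1 - up x.2)).2
      fun m _ => (eventually_all_finset ((S ×ˢ A).image fun x => up x.1 - up x.2)).2 fun m' _ =>
        evN (m - m')).and (avg (h := fun x => l x 0) R0 hr (by
          simpa [Function.comp_def] using hl.2.comp (f := fun x => (x, 0)) (by fun_prop)
            fun x (hx : x ∈ ball 0 r) => ⟨hb hx, by simpa⟩) l0))).exists
  have := NeZero.mk N0
  obtain ⟨s, s1, s2, s3⟩ := n3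
  have xb : ∀ j : Fin g → ZMod N, (fun i => s * R * ZMod.stdAddChar (j i)) ∈
      closedBall (0 : Fin g → ℂ) R := fun j => mem_closedBall_zero_iff.2
    ((pi_norm_le_iff_of_nonneg R0).2 fun i => by simp [s1, abs_of_nonneg R0])
  have xr := fun j => closedBall_subset_ball hr (xb j)
  let ι : Option (Fin g → ZMod N) → Ω := fun o => o.elim ⟨0, h0⟩ fun j => ⟨_, hb (xr j)⟩
  obtain ⟨p, hp⟩ := cert_of_cp (hk.1.submatrix ι) (hl.1.submatrix ι)
    (fun o => nz _ hl.1 _ ⟨0, h0⟩ (by cases o; exacts [l0, s2 _]))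
    (pull hk.1 hcp ι fun o => nz _ hk.1 _ ⟨0, h0⟩ (by
      cases o
      exacts [(k0 _ (mem_ball_self r0)).1.trans_ne one_ne_zero, (k0 _ (xr _)).1.trans_ne one_ne_zero]))
  obtain ⟨p0, p1, p2⟩ := hp none
  have G := grid (K := ((res Ω k).submatrix ι ι).submatrix some some)
    (fun a => mul_nonneg (c0 a).le (pow_nonneg R0 _)) hσ (p0.submatrix some) (fun j j' => by
      convert (se r hb).2 _ (xr j) (star _) (by simpa using xr j') using 2 with a
      · have : ∀ i, (s * R * ZMod.stdAddChar (j i)) ^ a i * conj (s * R * ZMod.stdAddChar (j' i)) ^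
            a i = R ^ (2 * a i) * (ZMod.stdAddChar ((a i : ZMod N) * j i) *
              conj (ZMod.stdAddChar ((a i : ZMod N) * j' i))) := fun i => by
          rw [← nsmul_eq_mul, ← nsmul_eq_mul, AddChar.map_nsmul_eq_pow, AddChar.map_nsmul_eq_pow,
            map_pow, pow_mul, ← mul_pow, ← mul_pow, ← mul_pow, map_mul, map_mul, Complex.conj_ofReal]
          congr 1
          linear_combination (R ^ 2 * ZMod.stdAddChar (j i) * conj (ZMod.stdAddChar (j' i))) *
            (by simpa [s1] using Complex.mul_conj' s : s * conj s = 1)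
        simp only [mul_assoc, ← Finset.prod_mul_distrib, Pi.star_apply, Complex.star_def] at this ⊢
        simp only [this, ch, pr, up, map_prod, Finset.prod_mul_distrib, Finset.prod_pow_eq_pow_sum,
          Finset.mul_sum, Int.cast_natCast]
        push_cast
        ring
      · simp [res, ι]) (by
      convert p2.submatrix some using 1
      ext j j'
      simp [compress, res, ι, (k0 _ (mem_ball_self r0)).1, (k0 _ (xr _)).1, (k0 _ (xr _)).2])
    S A y0 hy (fun n hn e => S0 (by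
      rwa [show n = 0 from funext fun i => Int.natCast_eq_zero.1 (congrFun (n1 n hn e) i)] at hn))
    fun m hm m' hm' e => sub_eq_zero.1 (n2 m hm m' hm' (funext fun i => by
      simpa [pr, sub_eq_zero] using congrFun e i))
  have P : ∀ j, (p none (some j) (some j)).re ≤
      1 - ‖l (fun i => s * R * ZMod.stdAddChar (j i)) 0‖ ^ 2 / (‖l 0 0‖ * C) := fun j => by
    have h3 := p1.diag_nonneg (i := some j)
    have h4 := hl.1.1.apply (ι none) (ι (some j))
    have h5 := fun o => (Complex.eq_coe_norm_of_nonneg (hl.1.diag_nonneg (i := ι o)))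
    have h6 := hC _ (xb j)
    have h7 := norm_pos_iff.2 (nz _ hl.1 (ι (some j)) ⟨0, h0⟩ (s2 j))
    rw [compress, if_neg (show (res Ω l).submatrix ι ι none none ≠ 0 from l0)] at h3
    simp only [Matrix.sub_apply, of_apply, hadamard_apply, submatrix_apply] at h3
    rw [← h4, Complex.star_def, Complex.mul_conj', h5 none, h5 (some j)] at h3
    simp only [res, ι, of_apply, Option.elim, Function.comp, star_star] at h3 h6 h7
    have h8 := (Complex.le_def.1 h3).1
    rw [← Complex.ofReal_pow, ← Complex.ofReal_div, ← Complex.ofReal_sub, Complex.sub_re,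
      Complex.re_mul_ofReal, Complex.ofReal_re, Complex.zero_re] at h8
    refine le_of_mul_le_mul_right ?_ h7
    rw [← div_div, sub_mul, div_mul_eq_mul_div, mul_div_assoc]
    nlinarith [mul_le_of_le_one_right (div_nonneg (sq_nonneg ‖l (fun i => s * R *
      ZMod.stdAddChar (j i)) 0‖) L0.le) ((div_le_one C0).2 h6)]
  have Q := Finset.sum_le_sum fun j (_ : j ∈ Finset.univ) => P j
  have Q0 := Finset.sum_nonneg fun j (_ : j ∈ Finset.univ) =>
    (Complex.le_def.1 (p0.diag_nonneg (i := some j))).1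
  rw [Finset.sum_sub_distrib, ← Finset.sum_div] at Q
  simp only [submatrix_apply, Finset.sum_const, Finset.card_univ, Fintype.card_pi, ZMod.card,
    Finset.prod_const, Fintype.card_fin, nsmul_eq_mul, mul_one, Nat.cast_pow] at Q G
  have n0 : (0 : ℝ) < N ^ g := pow_pos (Nat.cast_pos.2 (NeZero.pos N)) _
  have Q1 : (N : ℝ) ^ g * (‖l 0 0‖ / C / 2) ≤ _ := (le_of_eq (by field_simp)).trans
    (div_le_div_of_nonneg_right s3 (mul_pos L0 C0).le)
  nlinarith [mul_le_mul_of_nonneg_right hA.le Q0, mul_le_mul_of_nonneg_right hS n0.le,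
    mul_pos n0 δ0, mul_le_mul_of_nonneg_left (Q.trans (sub_le_self _ ((mul_pos n0 (by
      positivity)).le.trans Q1))) δ0.le]

end Pool.Agent.Results.MP_a1177b_an.No
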